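import Mathlib

/-!
# A zero-one law for permutation-invariant events of i.i.d. fields
-/

namespace Pool.Agent.Helper42.EA

open MeasureTheory ProbabilityTheory Set
open scoped symmDiff

variable {ι : Type*} {X : Type*} [MeasurableSpace X] (μ : Measure X) [IsProbabilityMeasure μ]

/-- the law of an i.i.d. field. -/
noncomputable abbrev iid (ι : Type*) : Measure (ι → X) := Measure.infinitePi (fun _ : ι => μ)

theorem measurePreserving_comp (g : Equiv.Perm ι) :
    MeasurePreserving (fun J : ι → X => fun i => J (g i)) (iid μ ι) (iid μ ι) := by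
  refine ⟨by fun_prop, ?_⟩
  exact Measure.map_infinitePi_infinitePi_of_inj (P := fun _ : ι => μ) g.injective

theorem indep_cylinders (I I' : Finset ι) (h : Disjoint I I') {S : Set (∀ _ : I, X)}
    {S' : Set (∀ _ : I', X)} (hS : MeasurableSet S) (hS' : MeasurableSet S') :
    iid μ ι (cylinder I S ∩ cylinder I' S')
      = iid μ ι (cylinder I S) * iid μ ι (cylinder I' S') := by
  have h1 : iIndepFun (fun (i : ι) (ω : ι → X) => ω i) (iid μ ι) :=
    iIndepFun_infinitePi (P := fun _ : ι => μ) (X := fun _ ω => ω) (fun _ => measurable_id)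
  have h2 := h1.indepFun_finset I I' h (fun i => measurable_pi_apply i)
  exact (indepFun_iff_measure_inter_preimage_eq_mul.1 h2) S S' hS hS'

theorem symmDiff_bound {Ω : Type*} [MeasurableSpace Ω] (P : Measure Ω) [IsProbabilityMeasure P]
    {S C : Set Ω} {ε : ℝ} (h : P (S ∆ C) < ENNReal.ofReal ε) :
    |P.real S - P.real C| ≤ ε := by
  have hε : 0 ≤ ε := by
    by_contra hcon
    rw [ENNReal.ofReal_of_nonpos (le_of_not_ge hcon)] at h
    exact absurd h (by simp)
  have h0 : P.real (S ∆ C) ≤ ε := by
    unfold Measure.real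
    exact ENNReal.toReal_le_of_le_ofReal hε h.le
  have h1 : P.real S ≤ P.real C + P.real (S ∆ C) := by
    calc P.real S ≤ P.real (C ∪ S ∆ C) := by
          refine measureReal_mono ?_ (measure_ne_top _ _)
          intro x hx
          by_cases hc : x ∈ C
          · exact Or.inl hc
          · exact Or.inr (Or.inl ⟨hx, hc⟩)
      _ ≤ _ := measureReal_union_le _ _
  have h2 : P.real C ≤ P.real S + P.real (S ∆ C) := by
    calc P.real C ≤ P.real (S ∪ S ∆ C) := by
          refine measureReal_mono ?_ (measure_ne_top _ _)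
          intro x hx
          by_cases hc : x ∈ S
          · exact Or.inl hc
          · exact Or.inr (Or.inr ⟨hx, hc⟩)
      _ ≤ _ := measureReal_union_le _ _
  rw [abs_le]
  constructor <;> linarith

/-- **Zero-one law.** -/
theorem zero_one {S : Set (ι → X)} (hS : MeasurableSet S)
    (hmove : ∀ F : Finset ι, ∃ g : Equiv.Perm ι, (∀ i ∈ F, g i ∉ F) ∧
      ∀ J : ι → X, (fun i => J (g i)) ∈ S ↔ J ∈ S) :
    iid μ ι S = 0 ∨ iid μ ι S = 1 := by
  classical
  have hdense : (iid μ ι).MeasureDense (measurableCylinders (fun _ : ι => X)) := by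
    apply Measure.MeasureDense.of_generateFrom_isSetAlgebra_finite
    · exact ⟨empty_mem_measurableCylinders _, fun s hs => compl_mem_measurableCylinders hs,
        fun s t hs ht => union_mem_measurableCylinders hs ht⟩
    · exact generateFrom_measurableCylinders.symm
  set p := (iid μ ι).real S with hp
  have hp0 : 0 ≤ p := measureReal_nonneg
  have hp1 : p ≤ 1 := measureReal_le_one
  have key : ∀ ε : ℝ, 0 < ε → |p - p ^ 2| ≤ 4 * ε := by
    intro ε hε
    obtain ⟨C, hC, hSC⟩ := hdense.approx S hS (measure_ne_top _ _) ε hε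
    obtain ⟨I, T, hT, rfl⟩ := (mem_measurableCylinders C).1 hC
    obtain ⟨g, hg, hinv⟩ := hmove I
    -- the shifted cylinder
    set C : Set (ι → X) := cylinder (α := fun _ : ι => X) I T with hC_def
    have hCm : MeasurableSet C := MeasurableSet.cylinder I hT
    set θ : (ι → X) → (ι → X) := fun J i => J (g i) with hθ
    have hθm : MeasurePreserving θ (iid μ ι) (iid μ ι) := measurePreserving_comp μ g
    have hpre : θ ⁻¹' S = S := by
      ext J
      exact hinv J
    let r : (∀ _ : (I.map g.toEmbedding : Finset ι), X) → (∀ _ : I, X) :=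
      fun f i => f ⟨g i, Finset.mem_map_of_mem _ i.2⟩
    have hr : Measurable r := by
      apply measurable_pi_iff.2
      intro i
      exact measurable_pi_apply _
    have hCpre : θ ⁻¹' C = cylinder (I.map g.toEmbedding) (r ⁻¹' T) := by
      ext J
      rfl
    have hdisj : Disjoint I (I.map g.toEmbedding) := by
      rw [Finset.disjoint_left]
      intro i hi hi'
      obtain ⟨j, hj, rfl⟩ := Finset.mem_map.1 hi'
      exact hg j hj hi
    have hind := indep_cylinders μ I (I.map g.toEmbedding) hdisj hT (hr hT)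
    rw [← hCpre, ← hC_def, hθm.measure_preimage hCm.nullMeasurableSet] at hind
    have hind' : (iid μ ι).real (C ∩ θ ⁻¹' C) = (iid μ ι).real C * (iid μ ι).real C := by
      unfold Measure.real
      rw [hind, ENNReal.toReal_mul]
    have h1 : |p - (iid μ ι).real C| ≤ ε := symmDiff_bound _ hSC
    have h2 : (iid μ ι) (S ∆ (C ∩ θ ⁻¹' C)) < ENNReal.ofReal (2 * ε) := by
      have hsub : S ∆ (C ∩ θ ⁻¹' C) ⊆ (S ∆ C) ∪ θ ⁻¹' (S ∆ C) := by
        rintro J (⟨h3, h4⟩ | ⟨h3, h4⟩)
        · by_cases h5 : J ∈ C
          · right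
            left
            exact ⟨(hinv J).2 h3, fun h6 => h4 ⟨h5, h6⟩⟩
          · left
            left
            exact ⟨h3, h5⟩
        · left
          right
          exact ⟨h3.1, h4⟩
      calc (iid μ ι) (S ∆ (C ∩ θ ⁻¹' C)) ≤ (iid μ ι) ((S ∆ C) ∪ θ ⁻¹' (S ∆ C)) :=
            measure_mono hsub
        _ ≤ (iid μ ι) (S ∆ C) + (iid μ ι) (θ ⁻¹' (S ∆ C)) := measure_union_le _ _
        _ = (iid μ ι) (S ∆ C) + (iid μ ι) (S ∆ C) := by
            rw [hθm.measure_preimage (hS.symmDiff hCm).nullMeasurableSet]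
        _ < ENNReal.ofReal ε + ENNReal.ofReal ε := ENNReal.add_lt_add hSC hSC
        _ = ENNReal.ofReal (2 * ε) := by
            rw [← ENNReal.ofReal_add hε.le hε.le, two_mul]
    have h3 : |p - (iid μ ι).real (C ∩ θ ⁻¹' C)| ≤ 2 * ε := symmDiff_bound _ h2
    rw [hind'] at h3
    set c := (iid μ ι).real C with hc
    have hc0 : 0 ≤ c := measureReal_nonneg
    have hc1 : c ≤ 1 := measureReal_le_one
    rw [abs_le] at h1 h3 ⊢
    have h4 : |p ^ 2 - c * c| ≤ 2 * ε := by
      have : p ^ 2 - c * c = (p - c) * (p + c) := by ring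
      rw [this, abs_mul]
      have h5 : |p - c| ≤ ε := abs_le.2 h1
      have h6 : |p + c| ≤ 2 := by
        rw [abs_of_nonneg (by linarith)]
        linarith
      nlinarith [abs_nonneg (p - c), abs_nonneg (p + c)]
    rw [abs_le] at h4
    constructor <;> linarith
  have hpp : p = p ^ 2 := by
    by_contra hne
    have hpos : 0 < |p - p ^ 2| := abs_pos.2 (sub_ne_zero.2 hne)
    have := key (|p - p ^ 2| / 8) (by positivity)
    linarith
  have : p = 0 ∨ p = 1 := by
    have h1 : p * (1 - p) = 0 := by nlinarith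
    rcases mul_eq_zero.1 h1 with h2 | h2
    · exact Or.inl h2
    · exact Or.inr (by linarith)
  rcases this with h | h
  · left
    rw [hp] at h
    exact (measureReal_eq_zero_iff).1 h
  · right
    rw [hp] at h
    unfold Measure.real at h
    rw [← ENNReal.toReal_one] at h
    exact (ENNReal.toReal_eq_toReal_iff' (measure_ne_top _ _) ENNReal.one_ne_top).1 h

end Pool.Agent.Helper42.EA
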