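import Pool.Agent.Helper42.EA.Cover
import Pool.Agent.Helper23.EAGraph

/-!
# Vertex-transitive graphs
-/

namespace Pool.Agent.Helper42.EA

open Pool.Agent.Helper23.EA Set

variable {V : Type*} {G : SimpleGraph V}

theorem finite_walk (hlf : ∀ x, (G.neighborSet x).Finite) (n : ℕ) :
    ∀ x, {y | ∃ p : G.Walk x y, p.length = n}.Finite := by
  induction n with
  | zero =>
    intro x
    refine (Set.finite_singleton x).subset ?_
    rintro y ⟨p, hp⟩
    exact (SimpleGraph.Walk.eq_of_length_eq_zero hp).symm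
  | succ n ih =>
    intro x
    refine ((hlf x).biUnion fun z _ => ih z).subset ?_
    rintro y ⟨p, hp⟩
    cases p with
    | nil => simp at hp
    | cons h q =>
      rw [SimpleGraph.Walk.length_cons] at hp
      exact mem_iUnion₂.2 ⟨_, h, q, by omega⟩

theorem exists_far [Infinite V] (hG : G.Connected) (hlf : ∀ x, (G.neighborSet x).Finite)
    (x : V) (n : ℕ) : ∃ y, n < G.dist x y := by
  by_contra hcon
  push Not at hcon
  have h1 : (Set.univ : Set V) ⊆ ⋃ k ∈ Finset.range (n + 1),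
      {y | ∃ p : G.Walk x y, p.length = k} := by
    intro y _
    obtain ⟨p, hp⟩ := hG.exists_walk_length_eq_dist x y
    exact mem_iUnion₂.2 ⟨G.dist x y, Finset.mem_range.2 (Nat.lt_succ_of_le (hcon y)), p, hp⟩
  have h2 : (⋃ k ∈ Finset.range (n + 1), {y | ∃ p : G.Walk x y, p.length = k}).Finite :=
    (Finset.finite_toSet _).biUnion fun k _ => finite_walk hlf k x
  exact Set.infinite_univ (h2.subset h1)

theorem dist_map_le (hG : G.Connected) (f : G ≃g G) (x y : V) :
    G.dist (f x) (f y) ≤ G.dist x y := by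
  obtain ⟨p, hp⟩ := hG.exists_walk_length_eq_dist x y
  rw [← hp]
  have := SimpleGraph.dist_le (p.map f.toHom)
  rwa [SimpleGraph.Walk.length_map] at this

theorem exists_moving [Infinite V] (hG : G.Connected) (hlf : ∀ x, (G.neighborSet x).Finite)
    (htr : ∀ x y : V, ∃ f : G ≃g G, f x = y) (F : Finset V) :
    ∃ f : G ≃g G, ∀ v ∈ F, f v ∉ F := by
  classical
  rcases F.eq_empty_or_nonempty with rfl | ⟨x0, hx0⟩
  · exact ⟨SimpleGraph.Iso.refl, by simp⟩
  · set D := F.sup (fun u => G.dist x0 u) with hD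
    obtain ⟨y, hy⟩ := exists_far hG hlf x0 (D + D)
    obtain ⟨f, hf⟩ := htr x0 y
    refine ⟨f, fun u hu hfu => ?_⟩
    have h1 : G.dist x0 y ≤ G.dist x0 (f u) + G.dist (f u) (f x0) := by
      rw [← hf]
      exact hG.dist_triangle
    have h2 : G.dist x0 (f u) ≤ D := Finset.le_sup (f := fun u => G.dist x0 u) hfu
    have h3 : G.dist (f u) (f x0) ≤ D := by
      refine (dist_map_le hG f u x0).trans ?_
      rw [SimpleGraph.dist_comm]
      exact Finset.le_sup (f := fun u => G.dist x0 u) hu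
    omega

theorem isAut_iso (f : G ≃g G) : IsAut (ea G) (eb G) f.toEquiv f.mapEdgeSet := by
  intro e
  have h1 : ((f.mapEdgeSet e : G.edgeSet) : Sym2 V) = (e : Sym2 V).map f := rfl
  rw [edge_eq G (f.mapEdgeSet e), edge_eq G e, Sym2.map_mk, Sym2.eq_iff] at h1
  exact h1

theorem exists_moving_edges [Infinite V] (hG : G.Connected)
    (hlf : ∀ x, (G.neighborSet x).Finite)
    (htr : ∀ x y : V, ∃ f : G ≃g G, f x = y) (F : Finset G.edgeSet) :
    ∃ f : V ≃ V, ∃ g : G.edgeSet ≃ G.edgeSet, IsAut (ea G) (eb G) f g ∧ ∀ e ∈ F, g e ∉ F := by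
  classical
  set U := F.image (ea G) ∪ F.image (eb G) with hU
  obtain ⟨f, hf⟩ := exists_moving hG hlf htr U
  refine ⟨f.toEquiv, f.mapEdgeSet, isAut_iso f, fun e he hge => ?_⟩
  have h1 : ea G e ∈ U := Finset.mem_union_left _ (Finset.mem_image_of_mem _ he)
  have h2 : eb G e ∈ U := Finset.mem_union_right _ (Finset.mem_image_of_mem _ he)
  have h3 : ea G (f.mapEdgeSet e) ∈ U := Finset.mem_union_left _ (Finset.mem_image_of_mem _ hge)
  rcases isAut_iso f e with ⟨h4, _⟩ | ⟨h4, _⟩
  · rw [h4] at h3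
    exact hf _ h1 h3
  · rw [h4] at h3
    exact hf _ h2 h3

end Pool.Agent.Helper42.EA
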