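import Pool.Agent.Helper23.EABasic

/-!
# Energy barriers between weak ground states: deterministic part
-/

namespace Pool.Agent.Helper42.EA

open Pool.Agent.Helper23.EA Set
open scoped symmDiff

variable {V E : Type*} (a b : E → V) (hlf : ∀ v, {e | a e = v ∨ b e = v}.Finite)

/-- `ρ` agrees with `τ` on `B` up to a global flip. -/
def Near (ρ τ : V → Bool) (B : Finset V) : Prop :=
  (∀ v ∈ B, ρ v = τ v) ∨ (∀ v ∈ B, ρ v = !(τ v))

/-- `τ` can be reached from `σ` at energy cost at most `q` (half of the energy, in fact): on every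
finite window a finite flip of `σ` of cost at most `q` agrees with `τ` up to a global flip. -/
def Bar (J : E → ℝ) (σ τ : V → Bool) (q : ℝ) : Prop :=
  ∀ B : Finset V, ∃ D : Finset V, Near (flip σ D) τ B ∧ En a b hlf J σ D ≤ q

variable {a b hlf}

theorem Near.mono {ρ τ : V → Bool} {B B' : Finset V} (h : Near ρ τ B) (hB : B' ⊆ B) :
    Near ρ τ B' := by
  rcases h with h | h
  · exact Or.inl fun v hv => h v (hB hv)
  · exact Or.inr fun v hv => h v (hB hv)

theorem Near.trans {ρ τ υ : V → Bool} {B : Finset V} (h : Near ρ τ B) (h' : Near τ υ B) :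
    Near ρ υ B := by
  rcases h with h | h <;> rcases h' with h' | h'
  · exact Or.inl fun v hv => (h v hv).trans (h' v hv)
  · exact Or.inr fun v hv => (h v hv).trans (h' v hv)
  · exact Or.inr fun v hv => by rw [h v hv, h' v hv]
  · exact Or.inl fun v hv => by rw [h v hv, h' v hv, Bool.not_not]

theorem near_not (τ : V → Bool) (B : Finset V) : Near (fun v => !(τ v)) τ B :=
  Or.inr fun _ _ => rfl

theorem near_not' (τ : V → Bool) (B : Finset V) : Near τ (fun v => !(τ v)) B :=
  Or.inr fun v _ => (Bool.not_not (τ v)).symm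

theorem near_refl (τ : V → Bool) (B : Finset V) : Near τ τ B := Or.inl fun _ _ => rfl

theorem Near.flip {ρ τ : V → Bool} {B : Finset V} (h : Near ρ τ B) (D : Finset V) :
    Near (flip ρ D) (Pool.Agent.Helper23.EA.flip τ D) B := by
  classical
  rcases h with h | h
  · left
    intro v hv
    unfold Pool.Agent.Helper23.EA.flip
    rw [h v hv]
  · right
    intro v hv
    unfold Pool.Agent.Helper23.EA.flip
    rw [h v hv]
    split_ifs <;> rfl

theorem Near.status {ρ τ : V → Bool} {B : Finset V} (h : Near ρ τ B) {e : E} (ha : a e ∈ B)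
    (hb : b e ∈ B) : status a b ρ e = status a b τ e := by
  unfold Pool.Agent.Helper23.EA.status
  rcases h with h | h
  · rw [h _ ha, h _ hb]
  · rw [h _ ha, h _ hb]
    cases τ (a e) <;> cases τ (b e) <;> rfl

theorem flip_empty (σ : V → Bool) : flip σ ∅ = σ := by
  classical
  funext v
  simp [Pool.Agent.Helper23.EA.flip]

theorem flip_flip (σ : V → Bool) [DecidableEq V] (D D' : Finset V) :
    flip (flip σ D) D' = flip σ (D ∆ D') := by
  classical
  funext v
  unfold Pool.Agent.Helper23.EA.flip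
  by_cases h : v ∈ D <;> by_cases h' : v ∈ D' <;> simp [Finset.mem_symmDiff, h, h']

theorem bd_empty : bd a b hlf (∅ : Finset V) = ∅ := by
  ext e
  simp [mem_bd]

theorem En_empty (J : E → ℝ) (σ : V → Bool) : En a b hlf J σ ∅ = 0 := by
  unfold En
  rw [bd_empty]
  exact Finset.sum_empty

theorem mem_bd_symmDiff [DecidableEq V] (D D' : Finset V) (e : E) :
    e ∈ bd a b hlf (D ∆ D') ↔ ¬ (e ∈ bd a b hlf D ↔ e ∈ bd a b hlf D') := by
  simp only [mem_bd, Finset.mem_symmDiff]
  by_cases h1 : a e ∈ D <;> by_cases h2 : b e ∈ D <;> by_cases h3 : a e ∈ D' <;>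
    by_cases h4 : b e ∈ D' <;> simp [h1, h2, h3, h4]

theorem En_symmDiff [DecidableEq V] (J : E → ℝ) (σ : V → Bool) (D D' : Finset V) :
    En a b hlf J σ (D ∆ D') = En a b hlf J σ D + En a b hlf J (flip σ D) D' := by
  classical
  have h1 : ∀ (ρ : V → Bool) (A U : Finset V), bd a b hlf A ⊆ bd a b hlf A ∪ bd a b hlf U := by
    intro _ A U
    exact Finset.subset_union_left
  set U := bd a b hlf D ∪ bd a b hlf D' with hU
  have h2 : ∀ (ρ : V → Bool) (A : Finset V), bd a b hlf A ⊆ U →
      En a b hlf J ρ A = ∑ e ∈ U, if e ∈ bd a b hlf A then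
        J e * (sp (ρ (a e)) * sp (ρ (b e))) else 0 := by
    intro ρ A hA
    unfold En
    rw [← Finset.sum_filter, Finset.filter_mem_eq_inter, Finset.inter_eq_right.2 hA]
  rw [h2 σ (D ∆ D') ?_, h2 σ D Finset.subset_union_left, h2 (flip σ D) D' Finset.subset_union_right,
    ← Finset.sum_add_distrib]
  · refine Finset.sum_congr rfl fun e _ => ?_
    have h3 := mem_bd_symmDiff (hlf := hlf) D D' e
    by_cases h4 : e ∈ bd a b hlf D
    · rw [sp_flip_bd a b hlf _ _ _ h4]
      by_cases h5 : e ∈ bd a b hlf D'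
      · rw [if_neg (by rw [h3]; simp [h4, h5]), if_pos h4, if_pos h5]
        ring
      · rw [if_pos (by rw [h3]; simp [h4, h5]), if_pos h4, if_neg h5]
        ring
    · rw [sp_flip_not_bd a b hlf _ _ _ h4]
      by_cases h5 : e ∈ bd a b hlf D'
      · rw [if_pos (by rw [h3]; simp [h4, h5]), if_neg h4, if_pos h5]
        ring
      · rw [if_neg (by rw [h3]; simp [h4, h5]), if_neg h4, if_neg h5]
        ring
  · intro e he
    rw [mem_bd_symmDiff] at he
    rw [hU, Finset.mem_union]
    by_contra hcon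
    push Not at hcon
    exact he (iff_of_false hcon.1 hcon.2)

/-- the endpoints of the boundary edges of `D`. -/
noncomputable def ends (a b : E → V) (hlf : ∀ v, {e | a e = v ∨ b e = v}.Finite)
    (D : Finset V) : Finset V := by
  classical exact (bd a b hlf D).image a ∪ (bd a b hlf D).image b

theorem En_congr (J : E → ℝ) {ρ τ : V → Bool} {D : Finset V} (h : Near ρ τ (ends a b hlf D)) :
    En a b hlf J ρ D = En a b hlf J τ D := by
  classical
  unfold En
  refine Finset.sum_congr rfl fun e he => ?_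
  rw [sp_mul_sp_eq, sp_mul_sp_eq, h.status]
  · unfold ends
    exact Finset.mem_union_left _ (Finset.mem_image_of_mem _ he)
  · unfold ends
    exact Finset.mem_union_right _ (Finset.mem_image_of_mem _ he)

theorem Bar.mono {J : E → ℝ} {σ τ : V → Bool} {q q' : ℝ} (h : Bar a b hlf J σ τ q)
    (hq : q ≤ q') : Bar a b hlf J σ τ q' := by
  intro B
  obtain ⟨D, h1, h2⟩ := h B
  exact ⟨D, h1, h2.trans hq⟩

theorem bar_refl (J : E → ℝ) (σ : V → Bool) : Bar a b hlf J σ σ 0 := by
  intro B
  refine ⟨∅, ?_, ?_⟩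
  · rw [flip_empty]
    exact near_refl _ _
  · rw [En_empty]

theorem Bar.trans {J : E → ℝ} {σ τ υ : V → Bool} {q q' : ℝ} (h : Bar a b hlf J σ τ q)
    (h' : Bar a b hlf J τ υ q') : Bar a b hlf J σ υ (q + q') := by
  classical
  intro B
  obtain ⟨D', h1, h2⟩ := h' B
  obtain ⟨D, h3, h4⟩ := h (B ∪ ends a b hlf D')
  refine ⟨D ∆ D', ?_, ?_⟩
  · rw [← flip_flip]
    exact ((h3.mono Finset.subset_union_left).flip D').trans h1
  · rw [En_symmDiff, En_congr J (h3.mono Finset.subset_union_right)]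
    linarith

theorem Bar.near_right {J : E → ℝ} {σ τ τ' : V → Bool} {q : ℝ} (h : Bar a b hlf J σ τ q)
    (h' : ∀ B, Near τ τ' B) : Bar a b hlf J σ τ' q := by
  intro B
  obtain ⟨D, h1, h2⟩ := h B
  exact ⟨D, h1.trans (h' B), h2⟩

theorem Bar.near_left {J : E → ℝ} {σ σ' τ : V → Bool} {q : ℝ} (h : Bar a b hlf J σ τ q)
    (h' : ∀ B, Near σ' σ B) : Bar a b hlf J σ' τ q := by
  intro B
  obtain ⟨D, h1, h2⟩ := h B
  refine ⟨D, ((h' B).flip D).trans h1, ?_⟩
  rw [En_congr J (h' _)]
  exact h2

theorem WGS.near {J : E → ℝ} {σ σ' : V → Bool} (h : WGS a b hlf J σ)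
    (h' : ∀ B, Near σ' σ B) : WGS a b hlf J σ' := by
  intro A
  rw [En_congr J (h' _)]
  exact h A

/-- changing finitely many couplings changes the cost by a bounded amount. -/
theorem Bar.change {J J' : E → ℝ} {Λ : Finset E} (hJ : ∀ e ∉ Λ, J' e = J e)
    {σ τ : V → Bool} {q : ℝ} (h : Bar a b hlf J σ τ q) :
    Bar a b hlf J' σ τ (q + ∑ e ∈ Λ, |J' e - J e|) := by
  classical
  intro B
  obtain ⟨D, h1, h2⟩ := h B
  refine ⟨D, h1, ?_⟩
  have h3 : En a b hlf J' σ D - En a b hlf J σ D ≤ ∑ e ∈ Λ, |J' e - J e| := by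
    unfold En
    rw [← Finset.sum_sub_distrib]
    have h4 : ∀ e ∈ bd a b hlf D, J' e * (sp (σ (a e)) * sp (σ (b e)))
        - J e * (sp (σ (a e)) * sp (σ (b e))) ≤ if e ∈ Λ then |J' e - J e| else 0 := by
      intro e _
      rw [← sub_mul]
      split_ifs with he
      · calc (J' e - J e) * (sp (σ (a e)) * sp (σ (b e)))
            ≤ |(J' e - J e) * (sp (σ (a e)) * sp (σ (b e)))| := le_abs_self _
          _ = |J' e - J e| := by rw [abs_mul, abs_mul, abs_sp, abs_sp]; ring
      · rw [hJ e he, sub_self, zero_mul]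
    refine (Finset.sum_le_sum h4).trans ?_
    rw [← Finset.sum_filter]
    refine Finset.sum_le_sum_of_subset_of_nonneg ?_ fun e _ _ => abs_nonneg _
    intro e he
    exact (Finset.mem_filter.1 he).2
  linarith

/-- Relaxation: from every configuration one reaches a weak ground state at no cost. -/
theorem exists_relax (J : E → ℝ) (σ : V → Bool) :
    ∃ τ, WGS a b hlf J τ ∧ Bar a b hlf J σ τ 0 := by
  classical
  -- minimisers in finite volumes
  have hmin : ∀ Λ : Finset V, ∃ D ⊆ Λ, ∀ D' ⊆ Λ, En a b hlf J σ D ≤ En a b hlf J σ D' := by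
    intro Λ
    obtain ⟨D, hD, hmin⟩ := Finset.exists_min_image Λ.powerset (fun D => En a b hlf J σ D)
      ⟨∅, Finset.empty_mem_powerset _⟩
    exact ⟨D, Finset.mem_powerset.1 hD, fun D' hD' => hmin D' (Finset.mem_powerset.2 hD')⟩
  choose D hD hDmin using hmin
  let 𝒰 : Ultrafilter (Finset V) := Ultrafilter.of Filter.atTop
  have h𝒰 : (𝒰 : Filter (Finset V)) ≤ Filter.atTop := Ultrafilter.of_le _
  let τ : V → Bool := fun v => decide (∀ᶠ Λ in (𝒰 : Filter (Finset V)), flip σ (D Λ) v = true)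
  have hτ : ∀ v, ∀ᶠ Λ in (𝒰 : Filter (Finset V)), flip σ (D Λ) v = τ v := by
    intro v
    by_cases h : ∀ᶠ Λ in (𝒰 : Filter (Finset V)), flip σ (D Λ) v = true
    · have : τ v = true := by simp [τ, h]
      rw [this]
      exact h
    · have h1 : τ v = false := by simp [τ, h]
      rw [h1]
      have := Ultrafilter.eventually_not.2 h
      exact this.mono fun Λ hΛ => by simpa using hΛ
  have hτB : ∀ B : Finset V, ∀ᶠ Λ in (𝒰 : Filter (Finset V)),
      ∀ v ∈ B, flip σ (D Λ) v = τ v := by
    intro B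
    exact (Filter.eventually_all_finset B).2 fun v _ => hτ v
  refine ⟨τ, ?_, ?_⟩
  · intro A
    have h1 : ∀ᶠ Λ in (𝒰 : Filter (Finset V)), A ⊆ Λ := h𝒰 (Filter.eventually_ge_atTop A)
    obtain ⟨Λ, hA, hΛ⟩ := (h1.and (hτB (ends a b hlf A))).exists
    have h2 : Near (flip σ (D Λ)) τ (ends a b hlf A) := Or.inl hΛ
    rw [← En_congr J h2]
    have h3 := En_symmDiff (hlf := hlf) J σ (D Λ) A
    have h4 := hDmin Λ (D Λ ∆ A) (by
      intro v hv
      rcases Finset.mem_symmDiff.1 hv with h | h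
      · exact hD Λ h.1
      · exact hA h.1)
    linarith
  · intro B
    obtain ⟨Λ, hΛ⟩ := (hτB B).exists
    refine ⟨D Λ, Or.inl hΛ, ?_⟩
    have := hDmin Λ ∅ (Finset.empty_subset _)
    rwa [En_empty] at this

/-- Weak ground states survive when the coupling of an edge is reinforced. -/
theorem WGS.update [DecidableEq E] {J : E → ℝ} {σ : V → Bool} (h : WGS a b hlf J σ) {e : E}
    {x : ℝ} (hx : 0 ≤ (x - J e) * sp (status a b σ e)) :
    WGS a b hlf (Function.update J e x) σ := by
  intro A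
  rw [En_update]
  have := h A
  split_ifs
  · rw [sp_mul_sp_eq]
    linarith
  · linarith

/-- Barriers move with the coupling of an edge on which the two configurations differ. -/
theorem Bar.update [DecidableEq E] {J : E → ℝ} {σ τ : V → Bool} {q : ℝ}
    (h : Bar a b hlf J σ τ q) {e : E} (hst : status a b σ e ≠ status a b τ e) (x : ℝ) :
    Bar a b hlf (Function.update J e x) σ τ (q + (x - J e) * sp (status a b σ e)) := by
  classical
  intro B
  obtain ⟨D, h1, h2⟩ := h (B ∪ {a e, b e})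
  refine ⟨D, h1.mono Finset.subset_union_left, ?_⟩
  have h3 : status a b (flip σ D) e = status a b τ e :=
    h1.status (by simp) (by simp)
  have h4 : e ∈ bd a b hlf D := by
    by_contra hne
    apply hst
    rw [← h3]
    have := sp_flip_not_bd a b hlf σ D e hne
    rw [sp_mul_sp_eq, sp_mul_sp_eq] at this
    exact (sp_injective this).symm
  rw [En_update, if_pos h4, sp_mul_sp_eq]
  linarith

theorem Bar.nonneg {J : E → ℝ} {σ τ : V → Bool} {q : ℝ} (h : Bar a b hlf J σ τ q)
    (hσ : WGS a b hlf J σ) : 0 ≤ q := by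
  obtain ⟨D, _, h2⟩ := h ∅
  exact (hσ D).trans h2

end Pool.Agent.Helper42.EA
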