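import Pool.Agent.Helper42.EA.Infinite

/-!
# The canonical correspondence between ground states after a finite change of the couplings
-/

namespace Pool.Agent.Helper42.EA

open Pool.Agent.Helper23.EA Set MeasureTheory

variable {V E : Type*} {a b : E → V} {hlf : ∀ v, {e | a e = v ∨ b e = v}.Finite}

/-- all barriers between weak ground states which differ on some edge are infinite. -/
def IB (a b : E → V) (hlf : ∀ v, {e | a e = v ∨ b e = v}.Finite) (J : E → ℝ) : Prop :=
  ∀ σ τ, WGS a b hlf J σ → WGS a b hlf J τ → (∃ e, status a b σ e ≠ status a b τ e) →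
    ∀ q, ¬ Bar a b hlf J σ τ q

/-- two configurations with the same status on all edges agree up to a global flip. -/
def Conn (a b : E → V) : Prop :=
  ∀ σ τ : V → Bool, (∀ e, status a b σ e = status a b τ e) → τ = σ ∨ τ = fun v => !(σ v)

theorem IB.eq {J : E → ℝ} (h : IB a b hlf J) (hc : Conn a b) {σ τ : V → Bool} {q : ℝ}
    (hσ : WGS a b hlf J σ) (hτ : WGS a b hlf J τ) (hb : Bar a b hlf J σ τ q) :
    τ = σ ∨ τ = fun v => !(σ v) := by
  apply hc
  by_contra hcon
  push Not at hcon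
  exact h σ τ hσ hτ hcon q hb

theorem near_of_eq {σ τ : V → Bool} (h : τ = σ ∨ τ = fun v => !(σ v)) (B : Finset V) :
    Near τ σ B := by
  rcases h with rfl | rfl
  · exact near_refl _ _
  · exact near_not _ _

theorem near_of_eq' {σ τ : V → Bool} (h : τ = σ ∨ τ = fun v => !(σ v)) (B : Finset V) :
    Near σ τ B := by
  rcases h with rfl | rfl
  · exact near_refl _ _
  · exact near_not' _ _

theorem Bar.change' {J J' : E → ℝ} {Λ : Finset E} (hJ : ∀ e ∉ Λ, J' e = J e)
    {σ τ : V → Bool} {q : ℝ} (h : Bar a b hlf J' σ τ q) :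
    Bar a b hlf J σ τ (q + ∑ e ∈ Λ, |J e - J' e|) :=
  h.change fun e he => (hJ e he).symm

variable {J J' : E → ℝ} {Λ : Finset E}

theorem succ_unique (hJ : ∀ e ∉ Λ, J' e = J e) (h : IB a b hlf J) (h' : IB a b hlf J')
    (hc : Conn a b) {σ τ τ' : V → Bool} (hσ : WGS a b hlf J σ) (hτ : WGS a b hlf J' τ)
    (hτ' : WGS a b hlf J' τ') {q q' : ℝ} (hq : Bar a b hlf J' σ τ q)
    (hq' : Bar a b hlf J' σ τ' q') : τ' = τ ∨ τ' = fun v => !(τ v) := by
  obtain ⟨σ1, hσ1, hb⟩ := exists_relax (a := a) (b := b) (hlf := hlf) J τ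
  have h1 : σ1 = σ ∨ σ1 = fun v => !(σ v) :=
    h.eq hc hσ hσ1 ((hq.change' hJ).trans hb)
  have h2 : Bar a b hlf J τ σ 0 := hb.near_right (near_of_eq h1)
  exact h'.eq hc hτ hτ' ((h2.change hJ).trans hq')

theorem pred_exists (hJ : ∀ e ∉ Λ, J' e = J e) (h' : IB a b hlf J')
    (hc : Conn a b) {τ : V → Bool} (hτ : WGS a b hlf J' τ) :
    ∃ σ, WGS a b hlf J σ ∧ Bar a b hlf J' σ τ 0 ∧ Bar a b hlf J τ σ 0 := by
  obtain ⟨σ, hσ, hb⟩ := exists_relax (a := a) (b := b) (hlf := hlf) J τ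
  obtain ⟨τ', hτ', hb'⟩ := exists_relax (a := a) (b := b) (hlf := hlf) J' σ
  have h1 : τ' = τ ∨ τ' = fun v => !(τ v) := h'.eq hc hτ hτ' ((hb.change hJ).trans hb')
  exact ⟨σ, hσ, hb'.near_right (near_of_eq h1), hb⟩

theorem pred_unique (hJ : ∀ e ∉ Λ, J' e = J e) (h : IB a b hlf J) (h' : IB a b hlf J')
    (hc : Conn a b) {σ σ' τ : V → Bool} (hσ : WGS a b hlf J σ) (hσ' : WGS a b hlf J σ')
    (hτ : WGS a b hlf J' τ) {q q' : ℝ} (hq : Bar a b hlf J' σ τ q)
    (hq' : Bar a b hlf J' σ' τ q') : σ' = σ ∨ σ' = fun v => !(σ v) := by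
  obtain ⟨σ1, hσ1, _, hb⟩ := pred_exists hJ h' hc hτ
  have h1 : σ1 = σ ∨ σ1 = fun v => !(σ v) := h.eq hc hσ hσ1 ((hq.change' hJ).trans hb)
  have h2 : σ1 = σ' ∨ σ1 = fun v => !(σ' v) := h.eq hc hσ' hσ1 ((hq'.change' hJ).trans hb)
  rcases h1 with h1 | h1 <;> rcases h2 with h2 | h2
  · left; rw [← h1, ← h2]
  · right
    funext v
    have := congrFun (h1.symm.trans h2) v
    rw [this, Bool.not_not]
  · right
    exact h2.symm.trans h1
  · left
    funext v
    have := congrFun (h1.symm.trans h2) v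
    simpa using this.symm

/-! ### Resampling finitely many couplings -/

theorem map_resample [Countable E] (μ : Measure ℝ) [IsProbabilityMeasure μ] (Λ : Finset E)
    [DecidableEq E] :
    ((iid μ E).prod (iid μ E)).map (fun p : (E → ℝ) × (E → ℝ) =>
      fun e => if e ∈ Λ then p.2 e else p.1 e) = iid μ E := by
  classical
  have hmeas : Measurable (fun p : (E → ℝ) × (E → ℝ) =>
      fun e => if e ∈ Λ then p.2 e else p.1 e) := by
    refine measurable_pi_iff.2 fun e => ?_
    by_cases h : e ∈ Λ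
    · simp only [h, if_true]
      fun_prop
    · simp only [h, if_false]
      fun_prop
  refine Measure.eq_infinitePi _ fun s t ht => ?_
  rw [Measure.map_apply hmeas (MeasurableSet.pi s.countable_toSet fun i _ => ht i)]
  have hpre : (fun p : (E → ℝ) × (E → ℝ) => fun e => if e ∈ Λ then p.2 e else p.1 e) ⁻¹'
      (Set.pi s t) = (Set.pi (s \ Λ : Finset E) t) ×ˢ (Set.pi (s ∩ Λ : Finset E) t) := by
    ext ⟨J, K⟩
    simp only [mem_preimage, Set.mem_pi, mem_prod, Finset.mem_coe, Finset.mem_sdiff,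
      Finset.mem_inter]
    constructor
    · intro h
      constructor
      · intro e he
        have := h e he.1
        rwa [if_neg he.2] at this
      · intro e he
        have := h e he.1
        rwa [if_pos he.2] at this
    · rintro ⟨h1, h2⟩ e he
      by_cases heΛ : e ∈ Λ
      · rw [if_pos heΛ]
        exact h2 e ⟨he, heΛ⟩
      · rw [if_neg heΛ]
        exact h1 e ⟨he, heΛ⟩
  rw [hpre, Measure.prod_prod, Measure.infinitePi_pi _ (fun i _ => ht i),
    Measure.infinitePi_pi _ (fun i _ => ht i)]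
  rw [← Finset.prod_union (Finset.disjoint_left.2 fun e h1 h2 =>
    (Finset.mem_sdiff.1 h1).2 (Finset.mem_inter.1 h2).2), Finset.sdiff_union_inter]

theorem ae_resample [Countable E] (μ : Measure ℝ) [IsProbabilityMeasure μ] (Λ : Finset E)
    [DecidableEq E] {p : (E → ℝ) → Prop} (h : ∀ᵐ J ∂(iid μ E), p J) :
    ∀ᵐ J ∂(iid μ E), ∀ᵐ K ∂(iid μ E), p (fun e => if e ∈ Λ then K e else J e) := by
  have hmeas : Measurable (fun p : (E → ℝ) × (E → ℝ) =>
      fun e => if e ∈ Λ then p.2 e else p.1 e) := by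
    refine measurable_pi_iff.2 fun e => ?_
    by_cases h : e ∈ Λ
    · simp only [h, if_true]
      fun_prop
    · simp only [h, if_false]
      fun_prop
  have h1 : ∀ᵐ x ∂((iid μ E).prod (iid μ E)), p (fun e => if e ∈ Λ then x.2 e else x.1 e) := by
    rw [← map_resample μ Λ] at h
    exact ae_of_ae_map hmeas.aemeasurable h
  exact Measure.ae_ae_of_ae_prod h1

end Pool.Agent.Helper42.EA
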