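import Pool.Agent.Helper42.EA.Transport
import Pool.Agent.Helper42.EA.ZeroOne

/-!
# Barriers are infinite when there are finitely many ground states
-/

namespace Pool.Agent.Helper42.EA

open Pool.Agent.Helper23.EA Set MeasureTheory

/-! ### Two elementary lemmas -/

theorem countable_of_Icc_finite {X : Set ℝ}
    (h : ∀ z ∈ X, ∀ y ∈ X, (X ∩ Icc z y).Finite) : X.Countable := by
  have h1 : X ⊆ (⋃ p : X × X, X ∩ Ioo p.1.1 p.2.1) ∪ {x | x ∈ X ∧ ∀ y ∈ X, x ≤ y} ∪
      {x | x ∈ X ∧ ∀ y ∈ X, y ≤ x} := by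
    intro x hx
    by_cases h2 : ∀ y ∈ X, x ≤ y
    · exact Or.inl (Or.inr ⟨hx, h2⟩)
    · by_cases h3 : ∀ y ∈ X, y ≤ x
      · exact Or.inr ⟨hx, h3⟩
      · push Not at h2 h3
        obtain ⟨z, hz, hzx⟩ := h2
        obtain ⟨y, hy, hxy⟩ := h3
        left; left
        rw [mem_iUnion]
        exact ⟨⟨⟨z, hz⟩, ⟨y, hy⟩⟩, hx, hzx, hxy⟩
  have h2 : {x | x ∈ X ∧ ∀ y ∈ X, x ≤ y}.Countable := by
    apply Set.Subsingleton.countable
    intro x hx y hy
    exact le_antisymm (hx.2 y hy.1) (hy.2 x hx.1)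
  have h3 : {x | x ∈ X ∧ ∀ y ∈ X, y ≤ x}.Countable := by
    apply Set.Subsingleton.countable
    intro x hx y hy
    exact le_antisymm (hy.2 x hx.1) (hx.2 y hy.1)
  refine Set.Countable.mono h1 ((Set.Countable.union ?_ h2).union h3)
  obtain ⟨T, hT, hTU⟩ := TopologicalSpace.isOpen_iUnion_countable
    (fun p : X × X => Ioo p.1.1 p.2.1) (fun p => isOpen_Ioo)
  have h4 : (⋃ p : X × X, X ∩ Ioo p.1.1 p.2.1) ⊆ ⋃ p ∈ T, X ∩ Icc p.1.1 p.2.1 := by
    intro x hx
    obtain ⟨p, hp⟩ := mem_iUnion.1 hx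
    have h5 : x ∈ ⋃ p ∈ T, Ioo p.1.1 p.2.1 := by
      rw [hTU]
      exact mem_iUnion.2 ⟨p, hp.2⟩
    obtain ⟨p', hp', h6⟩ := mem_iUnion₂.1 h5
    exact mem_iUnion₂.2 ⟨p', hp', hp.1, Ioo_subset_Icc_self h6⟩
  refine Set.Countable.mono h4 (hT.biUnion fun p _ => ?_)
  exact (h _ p.1.2 _ p.2.2).countable

theorem pigeon {α : Type*} {W : Set α} (hW : W.Finite) {Good : α → ℝ → Prop}
    (mono : ∀ p q q', q ≤ q' → Good p q → Good p q') {m : ℝ}
    (h : ∀ q : ℚ, m < q → ∃ p ∈ W, Good p q) : ∃ p ∈ W, ∀ q : ℚ, m < q → Good p q := by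
  classical
  by_contra hcon
  push Not at hcon
  have hch : ∀ p, ∃ q : ℚ, p ∈ W → m < q ∧ ¬ Good p q := by
    intro p
    by_cases hp : p ∈ W
    · obtain ⟨q, h1, h2⟩ := hcon p hp
      exact ⟨q, fun _ => ⟨h1, h2⟩⟩
    · exact ⟨0, fun h => absurd h hp⟩
  choose qf hqf using hch
  obtain ⟨q0, hq0⟩ := exists_rat_gt m
  obtain ⟨p1, hp1, _⟩ := h q0 hq0
  obtain ⟨p0, hp0, hmin⟩ := Finset.exists_min_image hW.toFinset qf ⟨p1, hW.mem_toFinset.2 hp1⟩
  have hp0' := hW.mem_toFinset.1 hp0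
  obtain ⟨p, hp, hgood⟩ := h (qf p0) (hqf p0 hp0').1
  apply (hqf p hp).2
  refine mono p _ _ ?_ hgood
  exact_mod_cast hmin p (hW.mem_toFinset.2 hp)

variable {V E : Type*} {a b : E → V} {hlf : ∀ v, {e | a e = v ∨ b e = v}.Finite}

/-- the couplings with finitely many weak ground states, two of which are at barrier at most
`q`. -/
def AA (a b : E → V) (hlf : ∀ v, {e | a e = v ∨ b e = v}.Finite) (q : ℝ) : Set (E → ℝ) :=
  {J | J ∈ FinWG a b hlf ∧ ∃ e s, J ∈ RR a b hlf e s q}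

theorem RR_mono {e : E} {s : Bool} {q q' : ℝ} (h : q ≤ q') :
    RR a b hlf e s q ⊆ RR a b hlf e s q' := by
  rintro J ⟨σ, τ, h1, h2, h3, h4, h5⟩
  exact ⟨σ, τ, h1, h2, h3, h4, h5.mono h⟩

theorem AA_mono {q q' : ℝ} (h : q ≤ q') : AA a b hlf q ⊆ AA a b hlf q' := by
  rintro J ⟨h1, e, s, h2⟩
  exact ⟨h1, e, s, RR_mono h h2⟩

theorem AA_neg {q : ℝ} (h : q < 0) : AA a b hlf q = ∅ := by
  rw [Set.eq_empty_iff_forall_notMem]
  rintro J ⟨_, e, s, σ, τ, h1, _, _, _, h5⟩
  have := h5.nonneg h1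
  linarith

theorem AA_eq (q : ℝ) : AA a b hlf q = ⋃ e : E, ⋃ s : Bool, RR a b hlf e s q ∩ FinWG a b hlf := by
  ext J
  simp only [AA, mem_ofPred_eq, mem_iUnion, mem_inter_iff]
  constructor
  · rintro ⟨h1, e, s, h2⟩
    exact ⟨e, s, h2, h1⟩
  · rintro ⟨e, s, h2, h1⟩
    exact ⟨h1, e, s, h2⟩

theorem measurableSet_AA [Countable V] [Countable E] (q : ℝ) : MeasurableSet (AA a b hlf q) := by
  rw [AA_eq]
  exact MeasurableSet.iUnion fun e => MeasurableSet.iUnion fun s =>
    measurableSet_RR_inter_FinWG e s q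

/-- The couplings for which the edge `e` separates a pair of weak ground states whose barrier is
exactly `m`, where `m` is the minimal barrier. -/
def TT (a b : E → V) (hlf : ∀ v, {e | a e = v ∨ b e = v}.Finite) (m : ℝ) (e : E) (s : Bool) :
    Set (E → ℝ) :=
  (⋂ q : {q : ℚ // m < q}, (RR a b hlf e s q.1 ∩ FinWG a b hlf)) ∩ FinWG a b hlf ∩
    ⋂ q : {q : ℚ // (q : ℝ) < m}, (AA a b hlf q.1)ᶜ

theorem measurableSet_TT [Countable V] [Countable E] (m : ℝ) (e : E) (s : Bool) :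
    MeasurableSet (TT a b hlf m e s) := by
  unfold TT
  refine MeasurableSet.inter (MeasurableSet.inter ?_ measurableSet_FinWG) ?_
  · exact MeasurableSet.iInter fun q => measurableSet_RR_inter_FinWG e s _
  · exact MeasurableSet.iInter fun q => (measurableSet_AA _).compl

theorem TT_pair {m : ℝ} {e : E} {s : Bool} {J : E → ℝ} (hJ : J ∈ TT a b hlf m e s) :
    ∃ p : (V → Bool) × (V → Bool), WGS a b hlf J p.1 ∧ WGS a b hlf J p.2 ∧
      status a b p.1 e = s ∧ status a b p.2 e = !s ∧ ∀ q : ℚ, m < q → Bar a b hlf J p.1 p.2 q := by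
  obtain ⟨⟨h1, h2⟩, h3⟩ := hJ
  have hfin : (WG a b hlf J ×ˢ WG a b hlf J).Finite := Set.Finite.prod h2 h2
  obtain ⟨p, hp, hgood⟩ := pigeon hfin
    (Good := fun p q => (status a b p.1 e = s ∧ status a b p.2 e = !s) ∧ Bar a b hlf J p.1 p.2 q)
    (fun p q q' hq h => ⟨h.1, h.2.mono hq⟩) (m := m) (by
      intro q hq
      obtain ⟨σ, τ, h4, h5, h6, h7, h8⟩ := (mem_iInter.1 h1 ⟨q, hq⟩).1
      exact ⟨(σ, τ), ⟨h4, h5⟩, ⟨h6, h7⟩, h8⟩)
  obtain ⟨q0, hq0⟩ := exists_rat_gt m
  exact ⟨p, hp.1, hp.2, (hgood q0 hq0).1.1, (hgood q0 hq0).1.2, fun q hq => (hgood q hq).2⟩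

theorem TT_section [DecidableEq E] (m : ℝ) (e : E) (s : Bool) (J : E → ℝ) :
    {x : ℝ | Function.update J e x ∈ TT a b hlf m e s}.Countable := by
  classical
  set X := {x : ℝ | Function.update J e x ∈ TT a b hlf m e s} with hX
  have hch : ∀ x : ℝ, ∃ p : (V → Bool) × (V → Bool), x ∈ X →
      WGS a b hlf (Function.update J e x) p.1 ∧ WGS a b hlf (Function.update J e x) p.2 ∧
      status a b p.1 e = s ∧ status a b p.2 e = !s ∧
      ∀ q : ℚ, m < q → Bar a b hlf (Function.update J e x) p.1 p.2 q := by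
    intro x
    by_cases hx : x ∈ X
    · obtain ⟨p, hp⟩ := TT_pair hx
      exact ⟨p, fun _ => hp⟩
    · exact ⟨default, fun h => absurd h hx⟩
  choose P hP using hch
  -- a pair is used at most once
  have hlt : ∀ x ∈ X, ∀ y ∈ X, P x = P y → ¬ (x - y) * sp s < 0 := by
    intro x hx y hy hxy hneg
    obtain ⟨h1, h2, h3, h4, h5⟩ := hP y hy
    obtain ⟨h1', h2', _, _, _⟩ := hP x hx
    rw [hxy] at h1' h2'
    obtain ⟨q, hq1, hq2⟩ := exists_rat_btwn (show m < m - (x - y) * sp s by linarith)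
    obtain ⟨q', hq1', hq2'⟩ := exists_rat_btwn (show (q : ℝ) + (x - y) * sp s < m by linarith)
    have hne : status a b (P y).1 e ≠ status a b (P y).2 e := by
      rw [h3, h4]
      cases s <;> simp
    have h6 := (h5 q hq1).update hne x
    rw [Function.update_idem, Function.update_self, h3] at h6
    have h7 : Function.update J e x ∈ AA a b hlf q' := by
      refine ⟨hx.1.2, e, s, (P y).1, (P y).2, h1', h2', h3, h4, h6.mono hq1'.le⟩
    exact (mem_iInter.1 hx.2 ⟨q', hq2'⟩) h7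
  have hinj : Set.InjOn P X := by
    intro x hx y hy hxy
    by_contra hne
    rcases lt_or_gt_of_ne hne with h | h
    · cases s
      · exact hlt y hy x hx hxy.symm (by simp only [sp, Bool.false_eq_true, if_false]; linarith)
      · exact hlt x hx y hy hxy (by simp only [sp, if_true]; linarith)
    · cases s
      · exact hlt x hx y hy hxy (by simp only [sp, Bool.false_eq_true, if_false]; linarith)
      · exact hlt y hy x hx hxy.symm (by simp only [sp, if_true]; linarith)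
  apply countable_of_Icc_finite
  intro z hz y hy
  set W := WG a b hlf (Function.update J e z) ∪ WG a b hlf (Function.update J e y) with hW
  have hWfin : W.Finite := (show (WG a b hlf (Function.update J e z)).Finite from hz.1.2).union
    (show (WG a b hlf (Function.update J e y)).Finite from hy.1.2)
  have hmaps : P '' (X ∩ Icc z y) ⊆ W ×ˢ W := by
    rintro _ ⟨x, ⟨hx, hzx, hxy⟩, rfl⟩
    obtain ⟨h1, h2, h3, h4, _⟩ := hP x hx
    have hup : ∀ (σ : V → Bool) (w : ℝ), WGS a b hlf (Function.update J e x) σ →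
        0 ≤ (w - x) * sp (status a b σ e) → WGS a b hlf (Function.update J e w) σ := by
      intro σ w hσ hw
      have := WGS.update (x := w) hσ (e := e) (by rwa [Function.update_self])
      rwa [Function.update_idem] at this
    cases s
    · constructor
      · left
        exact hup _ z h1 (by rw [h3]; simp only [sp, Bool.false_eq_true, if_false]; linarith)
      · right
        exact hup _ y h2 (by rw [h4]; simp only [sp, Bool.not_false, if_true]; linarith)
    · constructor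
      · right
        exact hup _ y h1 (by rw [h3]; simp only [sp, if_true]; linarith)
      · left
        exact hup _ z h2 (by
          rw [h4]; simp only [sp, Bool.not_true, Bool.false_eq_true, if_false]; linarith)
  exact Set.Finite.of_finite_image ((hWfin.prod hWfin).subset hmaps)
    (hinj.mono inter_subset_left)

variable [Countable V] [Countable E]

theorem AA_null (μ : Measure ℝ) [IsProbabilityMeasure μ] [NullSingletonClass μ]
    (hmove : ∀ F : Finset E, ∃ f : V ≃ V, ∃ g : E ≃ E, IsAut a b f g ∧ ∀ e ∈ F, g e ∉ F)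
    (q : ℝ) : iid μ E (AA a b hlf q) = 0 := by
  classical
  have h01 : ∀ q, iid μ E (AA a b hlf q) = 0 ∨ iid μ E (AA a b hlf q) = 1 := by
    intro q
    refine zero_one μ (measurableSet_AA q) fun F => ?_
    obtain ⟨f, g, hfg, hF⟩ := hmove F
    refine ⟨g, hF, fun J => ?_⟩
    unfold AA
    rw [mem_ofPred_eq, mem_ofPred_eq, hfg.finWG]
    refine and_congr_right fun _ => ?_
    constructor
    · rintro ⟨e, s, h⟩
      exact ⟨g e, s, (hfg.mem_RR J e s q).1 h⟩
    · rintro ⟨e, s, h⟩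
      refine ⟨g.symm e, s, (hfg.mem_RR J _ s q).2 ?_⟩
      rwa [Equiv.apply_symm_apply]
  by_contra hq
  set Q := {q : ℝ | iid μ E (AA a b hlf q) = 1} with hQ
  have hqQ : q ∈ Q := (h01 q).resolve_left hq
  have hbdd : BddBelow Q := by
    refine ⟨0, fun q' hq' => ?_⟩
    by_contra hneg
    push Not at hneg
    have : iid μ E (AA a b hlf q') = 1 := hq'
    rw [AA_neg hneg, measure_empty] at this
    exact zero_ne_one this
  set m := sInf Q with hm
  have hgt : ∀ q' : ℚ, m < q' → ∀ᵐ J ∂(iid μ E), J ∈ AA a b hlf q' := by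
    intro q' hq'
    obtain ⟨q'', hq'', hlt⟩ := (csInf_lt_iff hbdd ⟨q, hqQ⟩).1 hq'
    have h1 : iid μ E (AA a b hlf q'') = 1 := hq''
    have h2 : iid μ E (AA a b hlf q') = 1 := by
      apply le_antisymm prob_le_one
      rw [← h1]
      exact measure_mono (AA_mono hlt.le)
    exact (prob_compl_eq_zero_iff (measurableSet_AA _)).2 h2
  have hlt : ∀ q' : ℚ, (q' : ℝ) < m → ∀ᵐ J ∂(iid μ E), J ∉ AA a b hlf q' := by
    intro q' hq'
    have h1 : (q' : ℝ) ∉ Q := fun h => absurd (csInf_le hbdd h) (not_le.2 hq')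
    have h2 := (h01 q').resolve_right h1
    rw [ae_iff]
    simpa using h2
  have hgt' : ∀ᵐ J ∂(iid μ E), ∀ q' : ℚ, m < q' → J ∈ AA a b hlf q' := by
    rw [ae_all_iff]
    intro q'
    by_cases h : m < q'
    · filter_upwards [hgt q' h] with J hJ _
      exact hJ
    · exact Filter.Eventually.of_forall fun J h' => absurd h' h
  have hlt' : ∀ᵐ J ∂(iid μ E), ∀ q' : ℚ, (q' : ℝ) < m → J ∉ AA a b hlf q' := by
    rw [ae_all_iff]
    intro q'
    by_cases h : (q' : ℝ) < m
    · filter_upwards [hlt q' h] with J hJ _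
      exact hJ
    · exact Filter.Eventually.of_forall fun J h' => absurd h' h
  -- almost every `J` lies in some `TT`
  have hTT : ∀ᵐ J ∂(iid μ E), ∃ e s, J ∈ TT a b hlf m e s := by
    filter_upwards [hgt', hlt'] with J h1 h2
    obtain ⟨q0, hq0⟩ := exists_rat_gt m
    have hJfin : J ∈ FinWG a b hlf := (h1 q0 hq0).1
    have hfin : (WG a b hlf J ×ˢ WG a b hlf J).Finite := Set.Finite.prod hJfin hJfin
    obtain ⟨p, hp, hgood⟩ := pigeon hfin
      (Good := fun p q => (∃ e, status a b p.1 e ≠ status a b p.2 e) ∧ Bar a b hlf J p.1 p.2 q)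
      (fun p q q' hq h => ⟨h.1, h.2.mono hq⟩) (m := m) (by
        intro q' hq'
        obtain ⟨_, e, s, σ, τ, h4, h5, h6, h7, h8⟩ := h1 q' hq'
        refine ⟨(σ, τ), ⟨h4, h5⟩, ⟨e, ?_⟩, h8⟩
        rw [h6, h7]
        cases s <;> simp)
    obtain ⟨⟨e, he⟩, _⟩ := hgood q0 hq0
    refine ⟨e, status a b p.1 e, ⟨mem_iInter.2 fun q' => ⟨?_, hJfin⟩, hJfin⟩,
      mem_iInter.2 fun q' => h2 q'.1 q'.2⟩
    refine ⟨p.1, p.2, hp.1, hp.2, rfl, ?_, (hgood q'.1 q'.2).2⟩
    revert he
    cases status a b p.1 e <;> cases status a b p.2 e <;> simp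
  have hnull : ∀ e s, iid μ E (TT a b hlf m e s) = 0 := by
    intro e s
    refine infinitePi_null_of_section (fun _ : E => μ) e (measurableSet_TT m e s) ?_
    refine Filter.Eventually.of_forall fun J => ?_
    exact (TT_section m e s J).measure_zero μ
  have hcontra : ∀ᵐ J ∂(iid μ E), ∀ e s, J ∉ TT a b hlf m e s := by
    rw [ae_all_iff]
    intro e
    rw [ae_all_iff]
    intro s
    rw [ae_iff]
    simpa using hnull e s
  have hfalse : ∀ᵐ J ∂(iid μ E), False := by
    filter_upwards [hTT, hcontra] with J h1 h2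
    obtain ⟨e, s, h3⟩ := h1
    exact h2 e s h3
  rw [Filter.eventually_false_iff_eq_bot, ae_eq_bot] at hfalse
  have := measure_univ (μ := iid μ E)
  rw [hfalse] at this
  simp at this

/-- **Infinite barriers**: almost surely, if there are finitely many weak ground states, any two
which differ on some edge are separated by an infinite energy barrier. -/
theorem ae_infinite_barrier (μ : Measure ℝ) [IsProbabilityMeasure μ] [NullSingletonClass μ]
    (hmove : ∀ F : Finset E, ∃ f : V ≃ V, ∃ g : E ≃ E, IsAut a b f g ∧ ∀ e ∈ F, g e ∉ F) :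
    ∀ᵐ J ∂(iid μ E), J ∈ FinWG a b hlf → ∀ σ τ, WGS a b hlf J σ → WGS a b hlf J τ →
      (∃ e, status a b σ e ≠ status a b τ e) → ∀ q, ¬ Bar a b hlf J σ τ q := by
  have h1 : ∀ᵐ J ∂(iid μ E), ∀ n : ℕ, J ∉ AA a b hlf (n : ℝ) := by
    rw [ae_all_iff]
    intro n
    rw [ae_iff]
    simpa using AA_null (hlf := hlf) μ hmove (n : ℝ)
  filter_upwards [h1] with J hJ hfin σ τ hσ hτ hne q hq
  obtain ⟨e, he⟩ := hne
  obtain ⟨n, hn⟩ := exists_nat_ge q
  apply hJ n
  refine ⟨hfin, e, status a b σ e, σ, τ, hσ, hτ, rfl, ?_, hq.mono hn⟩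
  revert he
  cases status a b σ e <;> cases status a b τ e <;> simp

/-- finiteness of the set of weak ground states is deterministic. -/
theorem ae_finWG (μ : Measure ℝ) [IsProbabilityMeasure μ]
    (hmove : ∀ F : Finset E, ∃ f : V ≃ V, ∃ g : E ≃ E, IsAut a b f g ∧ ∀ e ∈ F, g e ∉ F) :
    (∀ᵐ J ∂(iid μ E), J ∉ FinWG a b hlf) ∨ (∀ᵐ J ∂(iid μ E), J ∈ FinWG a b hlf) := by
  rcases zero_one μ (S := FinWG a b hlf) measurableSet_FinWG (fun F => by
    obtain ⟨f, g, hfg, hF⟩ := hmove F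
    exact ⟨g, hF, fun J => hfg.finWG J⟩) with h | h
  · left
    rw [ae_iff]
    simpa using h
  · right
    exact (prob_compl_eq_zero_iff measurableSet_FinWG).2 h

end Pool.Agent.Helper42.EA
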