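import Pool.Agent.Helper42.EA.Barrier

/-!
# Measurability of the barrier events
-/

namespace Pool.Agent.Helper42.EA

open Pool.Agent.Helper23.EA Set MeasureTheory

variable {V E : Type*} (a b : E → V) (hlf : ∀ v, {e | a e = v ∨ b e = v}.Finite)

/-- weak ground states of `J`. -/
def WG (J : E → ℝ) : Set (V → Bool) := {σ | WGS a b hlf J σ}

/-- the couplings for which weak ground states are separated by the window `B`. -/
def Sep (B : Finset V) : Set (E → ℝ) :=
  {J | ∀ σ τ, WGS a b hlf J σ → WGS a b hlf J τ → (∀ v ∈ B, σ v = τ v) → σ = τ}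

/-- the couplings with finitely many weak ground states. -/
def FinWG : Set (E → ℝ) := {J | (WG a b hlf J).Finite}

/-- the couplings with two weak ground states which differ on `e`, at barrier at most `q`. -/
def RR (e : E) (s : Bool) (q : ℝ) : Set (E → ℝ) :=
  {J | ∃ σ τ, WGS a b hlf J σ ∧ WGS a b hlf J τ ∧ status a b σ e = s ∧ status a b τ e = !s ∧
    Bar a b hlf J σ τ q}

variable {a b hlf}

theorem isClosed_proj {K : Set ((E → ℝ) × ((V → Bool) × (V → Bool)))} (hK : IsClosed K) :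
    IsClosed {J | ∃ σ τ, (J, (σ, τ)) ∈ K} := by
  have : {J | ∃ σ τ, (J, (σ, τ)) ∈ K} = Prod.fst '' K := by
    ext J
    simp
  rw [this]
  exact isClosedMap_fst_of_compactSpace _ hK

theorem isClosed_WGS_left :
    IsClosed {p : (E → ℝ) × ((V → Bool) × (V → Bool)) | WGS a b hlf p.1 p.2.1} :=
  (isClosed_WGS a b hlf).preimage
    (f := fun p : (E → ℝ) × ((V → Bool) × (V → Bool)) => (p.1, p.2.1)) (by fun_prop)

theorem isClosed_WGS_right :
    IsClosed {p : (E → ℝ) × ((V → Bool) × (V → Bool)) | WGS a b hlf p.1 p.2.2} :=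
  (isClosed_WGS a b hlf).preimage
    (f := fun p : (E → ℝ) × ((V → Bool) × (V → Bool)) => (p.1, p.2.2)) (by fun_prop)

theorem isClosed_agree (B : Finset V) :
    IsClosed {p : (E → ℝ) × ((V → Bool) × (V → Bool)) | ∀ v ∈ B, p.2.1 v = p.2.2 v} := by
  have : {p : (E → ℝ) × ((V → Bool) × (V → Bool)) | ∀ v ∈ B, p.2.1 v = p.2.2 v}
      = ⋂ v ∈ B, {p | p.2.1 v = p.2.2 v} := by
    ext p; simp
  rw [this]
  exact isClosed_biInter fun v _ => isClosed_eq (by fun_prop) (by fun_prop)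

theorem isClosed_disagree (v : V) :
    IsClosed {p : (E → ℝ) × ((V → Bool) × (V → Bool)) | p.2.1 v ≠ p.2.2 v} := by
  have : {p : (E → ℝ) × ((V → Bool) × (V → Bool)) | p.2.1 v ≠ p.2.2 v}
      = {p | p.2.1 v = !(p.2.2 v)} := by
    ext p
    simp only [mem_ofPred_eq]
    cases p.2.1 v <;> cases p.2.2 v <;> simp
  rw [this]
  have hnot : Continuous (fun x : Bool => !x) := continuous_of_discreteTopology
  exact isClosed_eq (by fun_prop) (hnot.comp (by fun_prop))

theorem measurableSet_Sep [Countable V] [Countable E] (B : Finset V) :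
    MeasurableSet (Sep a b hlf B) := by
  have h : (Sep a b hlf B)ᶜ = ⋃ v : V, {J | ∃ σ τ, (J, (σ, τ)) ∈
      {p : (E → ℝ) × ((V → Bool) × (V → Bool)) | WGS a b hlf p.1 p.2.1} ∩
      {p | WGS a b hlf p.1 p.2.2} ∩ {p | ∀ v ∈ B, p.2.1 v = p.2.2 v} ∩
      {p | p.2.1 v ≠ p.2.2 v}} := by
    ext J
    simp only [Sep, mem_compl_iff, mem_ofPred_eq, mem_iUnion, mem_inter_iff]
    constructor
    · intro h
      push Not at h
      obtain ⟨σ, τ, h1, h2, h3, h4⟩ := h
      obtain ⟨v, hv⟩ := Function.ne_iff.1 h4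
      exact ⟨v, σ, τ, ⟨⟨h1, h2⟩, h3⟩, hv⟩
    · rintro ⟨v, σ, τ, ⟨⟨h1, h2⟩, h3⟩, hv⟩ hcon
      exact hv (congrFun (hcon σ τ h1 h2 h3) v)
  rw [← MeasurableSet.compl_iff, h]
  refine MeasurableSet.iUnion fun v => ?_
  exact (isClosed_proj (((isClosed_WGS_left.inter isClosed_WGS_right).inter
    (isClosed_agree B)).inter (isClosed_disagree v))).measurableSet

theorem finWG_iff (J : E → ℝ) : J ∈ FinWG a b hlf ↔ ∃ B, J ∈ Sep a b hlf B := by
  classical
  constructor
  · intro h
    have h' : (WG a b hlf J).Finite := h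
    have hch : ∀ p : (V → Bool) × (V → Bool), ∃ v : Option V, p.1 ≠ p.2 →
        ∃ w, v = some w ∧ p.1 w ≠ p.2 w := by
      intro p
      by_cases hp : p.1 = p.2
      · exact ⟨none, fun h => absurd hp h⟩
      · obtain ⟨w, hw⟩ := Function.ne_iff.1 hp
        exact ⟨some w, fun _ => ⟨w, rfl, hw⟩⟩
    choose f hf using hch
    refine ⟨(h'.toFinset ×ˢ h'.toFinset).biUnion (fun p => (f p).toFinset), ?_⟩
    intro σ τ hσ hτ hag
    by_contra hne
    obtain ⟨w, hw1, hw2⟩ := hf (σ, τ) hne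
    apply hw2
    apply hag
    rw [Finset.mem_biUnion]
    refine ⟨(σ, τ), ?_, ?_⟩
    · rw [Finset.mem_product]
      exact ⟨h'.mem_toFinset.2 hσ, h'.mem_toFinset.2 hτ⟩
    · rw [hw1]
      simp
  · rintro ⟨B, hB⟩
    have hinj : Set.InjOn (fun σ : V → Bool => fun v : B => σ v) (WG a b hlf J) := by
      intro σ hσ τ hτ h
      exact hB σ τ hσ hτ fun v hv => congrFun h ⟨v, hv⟩
    exact Set.Finite.of_finite_image (Set.toFinite _) hinj

theorem finWG_eq : FinWG a b hlf = ⋃ B, Sep a b hlf B := by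
  ext J
  rw [finWG_iff, mem_iUnion]

theorem measurableSet_FinWG [Countable V] [Countable E] : MeasurableSet (FinWG a b hlf) := by
  rw [finWG_eq]
  exact MeasurableSet.iUnion fun B => measurableSet_Sep B

theorem isClosed_pattern_left (B : Finset V) (p : B → Bool) :
    IsClosed {x : (E → ℝ) × ((V → Bool) × (V → Bool)) | ∀ v : B, x.2.1 v = p v} := by
  have : {x : (E → ℝ) × ((V → Bool) × (V → Bool)) | ∀ v : B, x.2.1 v = p v}
      = ⋂ v : B, {x | x.2.1 v = p v} := by
    ext x; simp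
  rw [this]
  exact isClosed_iInter fun v => isClosed_eq (by fun_prop) (by fun_prop)

theorem isClosed_pattern_right (B : Finset V) (p : B → Bool) :
    IsClosed {x : (E → ℝ) × ((V → Bool) × (V → Bool)) | ∀ v : B, x.2.2 v = p v} := by
  have : {x : (E → ℝ) × ((V → Bool) × (V → Bool)) | ∀ v : B, x.2.2 v = p v}
      = ⋂ v : B, {x | x.2.2 v = p v} := by
    ext x; simp
  rw [this]
  exact isClosed_iInter fun v => isClosed_eq (by fun_prop) (by fun_prop)

theorem continuous_status (e : E) : Continuous (fun σ : V → Bool => status a b σ e) := by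
  unfold status
  have h2 : Continuous (fun q : Bool × Bool => (q.1 == q.2)) := continuous_of_discreteTopology
  have h3 : Continuous (fun σ : V → Bool => (σ (a e), σ (b e))) := by fun_prop
  exact h2.comp h3

theorem continuous_flip (D : Finset V) (v : V) :
    Continuous (fun σ : V → Bool => flip σ D v) := by
  classical
  unfold Pool.Agent.Helper23.EA.flip
  by_cases h : v ∈ D
  · simp only [h, if_true]
    have hnot : Continuous (fun x : Bool => !x) := continuous_of_discreteTopology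
    exact hnot.comp (continuous_apply v)
  · simp only [h, if_false]
    exact continuous_apply v

theorem isClosed_near (D B : Finset V) :
    IsClosed {x : (E → ℝ) × ((V → Bool) × (V → Bool)) | Near (flip x.2.1 D) x.2.2 B} := by
  have hnot : Continuous (fun x : Bool => !x) := continuous_of_discreteTopology
  have h1 : ∀ v, Continuous (fun x : (E → ℝ) × ((V → Bool) × (V → Bool)) =>
      flip x.2.1 D v) := fun v => (continuous_flip D v).comp (by fun_prop)
  have : {x : (E → ℝ) × ((V → Bool) × (V → Bool)) | Near (flip x.2.1 D) x.2.2 B}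
      = (⋂ v ∈ B, {x : (E → ℝ) × ((V → Bool) × (V → Bool)) |
          Pool.Agent.Helper23.EA.flip x.2.1 D v = x.2.2 v})
        ∪ (⋂ v ∈ B, {x : (E → ℝ) × ((V → Bool) × (V → Bool)) |
          Pool.Agent.Helper23.EA.flip x.2.1 D v = !(x.2.2 v)}) := by
    ext x
    simp [Near]
  rw [this]
  refine IsClosed.union ?_ ?_
  · exact isClosed_biInter fun v _ => isClosed_eq (h1 v) (by fun_prop)
  · exact isClosed_biInter fun v _ => isClosed_eq (h1 v) (hnot.comp (by fun_prop))

theorem RR_inter_Sep (B : Finset V) (e : E) (s : Bool) (q : ℝ) :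
    RR a b hlf e s q ∩ Sep a b hlf B = Sep a b hlf B ∩ ⋃ p : B → Bool, ⋃ p' : B → Bool,
      ⋂ B' : Finset V, ⋃ D : Finset V, {J | ∃ σ τ, (J, (σ, τ)) ∈
      {x : (E → ℝ) × ((V → Bool) × (V → Bool)) | WGS a b hlf x.1 x.2.1} ∩
      {x | WGS a b hlf x.1 x.2.2} ∩ {x | ∀ v : B, x.2.1 v = p v} ∩ {x | ∀ v : B, x.2.2 v = p' v} ∩
      {x | status a b x.2.1 e = s} ∩ {x | status a b x.2.2 e = !s} ∩
      {x | Near (flip x.2.1 D) x.2.2 B'} ∩ {x | En a b hlf x.1 x.2.1 D ≤ q}} := by
  ext J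
  simp only [RR, mem_inter_iff, mem_iUnion, mem_iInter, mem_ofPred_eq]
  constructor
  · rintro ⟨⟨σ, τ, h1, h2, h3, h4, h5⟩, h6⟩
    refine ⟨h6, fun v => σ v, fun v => τ v, fun B' => ?_⟩
    obtain ⟨D, h7, h8⟩ := h5 B'
    exact ⟨D, σ, τ, ⟨⟨⟨⟨⟨⟨⟨h1, h2⟩, fun v => rfl⟩, fun v => rfl⟩, h3⟩, h4⟩, h7⟩, h8⟩⟩
  · rintro ⟨h6, p, p', h⟩
    refine ⟨?_, h6⟩
    choose D σ τ h7 using h
    have hσ : ∀ B', σ B' = σ ∅ := by
      intro B'
      refine h6 _ _ (h7 B').1.1.1.1.1.1.1 (h7 ∅).1.1.1.1.1.1.1 fun v hv => ?_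
      rw [(h7 B').1.1.1.1.1.2 ⟨v, hv⟩, (h7 ∅).1.1.1.1.1.2 ⟨v, hv⟩]
    have hτ : ∀ B', τ B' = τ ∅ := by
      intro B'
      refine h6 _ _ (h7 B').1.1.1.1.1.1.2 (h7 ∅).1.1.1.1.1.1.2 fun v hv => ?_
      rw [(h7 B').1.1.1.1.2 ⟨v, hv⟩, (h7 ∅).1.1.1.1.2 ⟨v, hv⟩]
    refine ⟨σ ∅, τ ∅, (h7 ∅).1.1.1.1.1.1.1, (h7 ∅).1.1.1.1.1.1.2, (h7 ∅).1.1.1.2, (h7 ∅).1.1.2,
      fun B' => ⟨D B', ?_, ?_⟩⟩
    · have := (h7 B').1.2
      rwa [hσ, hτ] at this
    · have := (h7 B').2
      rwa [hσ] at this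

theorem measurableSet_RR_inter_Sep [Countable V] [Countable E] (B : Finset V) (e : E) (s : Bool)
    (q : ℝ) : MeasurableSet (RR a b hlf e s q ∩ Sep a b hlf B) := by
  rw [RR_inter_Sep]
  refine (measurableSet_Sep B).inter ?_
  refine MeasurableSet.iUnion fun p => MeasurableSet.iUnion fun p' =>
    MeasurableSet.iInter fun B' => MeasurableSet.iUnion fun D => ?_
  refine (isClosed_proj ?_).measurableSet
  refine IsClosed.inter (IsClosed.inter (IsClosed.inter (IsClosed.inter (IsClosed.inter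
    (IsClosed.inter (IsClosed.inter isClosed_WGS_left isClosed_WGS_right)
    (isClosed_pattern_left B p)) (isClosed_pattern_right B p')) ?_) ?_) (isClosed_near D B')) ?_
  · exact isClosed_eq ((continuous_status e).comp (by fun_prop)) continuous_const
  · exact isClosed_eq ((continuous_status e).comp (by fun_prop)) continuous_const
  · refine isClosed_le ?_ continuous_const
    exact (continuous_En a b hlf D).comp
      (f := fun x : (E → ℝ) × ((V → Bool) × (V → Bool)) => (x.1, x.2.1)) (by fun_prop)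

theorem measurableSet_RR_inter_FinWG [Countable V] [Countable E] (e : E) (s : Bool)
    (q : ℝ) : MeasurableSet (RR a b hlf e s q ∩ FinWG a b hlf) := by
  rw [finWG_eq, inter_iUnion]
  exact MeasurableSet.iUnion fun B => measurableSet_RR_inter_Sep B e s q

end Pool.Agent.Helper42.EA
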