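import Pool.Agent.Helper42.EA.Meas

/-!
# Transport by automorphisms
-/

namespace Pool.Agent.Helper42.EA

open Pool.Agent.Helper23.EA Set

variable {V E : Type*} {a b : E → V} {hlf : ∀ v, {e | a e = v ∨ b e = v}.Finite}

/-- `(f, g)` is an automorphism of the graph with edges `E` and end points `a`, `b`. -/
def IsAut (a b : E → V) (f : V ≃ V) (g : E ≃ E) : Prop :=
  ∀ e, (a (g e) = f (a e) ∧ b (g e) = f (b e)) ∨ (a (g e) = f (b e) ∧ b (g e) = f (a e))

variable {f : V ≃ V} {g : E ≃ E}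

theorem IsAut.mem_bd (h : IsAut a b f g) (D : Finset V) (e : E) :
    e ∈ bd a b hlf D ↔ g e ∈ bd a b hlf (D.map f.toEmbedding) := by
  rw [Pool.Agent.Helper23.EA.mem_bd, Pool.Agent.Helper23.EA.mem_bd]
  have key : ∀ v, f v ∈ D.map f.toEmbedding ↔ v ∈ D := by
    intro v
    simp
  rcases h e with ⟨h1, h2⟩ | ⟨h1, h2⟩
  · rw [h1, h2, key, key]
  · rw [h1, h2, key, key]
    tauto

theorem IsAut.En (h : IsAut a b f g) (J : E → ℝ) (σ : V → Bool) (D : Finset V) :
    En a b hlf (fun e => J (g e)) (fun v => σ (f v)) D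
      = Pool.Agent.Helper23.EA.En a b hlf J σ (D.map f.toEmbedding) := by
  unfold Pool.Agent.Helper23.EA.En
  refine Finset.sum_equiv g (fun e => h.mem_bd D e) fun e _ => ?_
  rcases h e with ⟨h1, h2⟩ | ⟨h1, h2⟩
  · rw [h1, h2]
  · rw [h1, h2]
    ring

theorem map_map_symm (D : Finset V) :
    (D.map f.symm.toEmbedding).map f.toEmbedding = D := by
  ext v
  simp

theorem IsAut.WGS (h : IsAut a b f g) (J : E → ℝ) (σ : V → Bool) :
    WGS a b hlf (fun e => J (g e)) (fun v => σ (f v)) ↔ Pool.Agent.Helper23.EA.WGS a b hlf J σ := by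
  constructor
  · intro h1 A
    have := h1 (A.map f.symm.toEmbedding)
    rwa [h.En, map_map_symm] at this
  · intro h1 A
    rw [h.En]
    exact h1 _

theorem IsAut.status (h : IsAut a b f g) (σ : V → Bool) (e : E) :
    status a b (fun v => σ (f v)) e = Pool.Agent.Helper23.EA.status a b σ (g e) := by
  unfold Pool.Agent.Helper23.EA.status
  rcases h e with ⟨h1, h2⟩ | ⟨h1, h2⟩
  · rw [h1, h2]
  · rw [h1, h2, Bool.beq_comm]

theorem flip_transport (σ : V → Bool) (D : Finset V) :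
    Pool.Agent.Helper23.EA.flip (fun v => σ (f v)) D
      = fun v => Pool.Agent.Helper23.EA.flip σ (D.map f.toEmbedding) (f v) := by
  classical
  funext v
  unfold Pool.Agent.Helper23.EA.flip
  simp

theorem near_transport (ρ τ : V → Bool) (B : Finset V) :
    Near (fun v => ρ (f v)) (fun v => τ (f v)) B ↔ Near ρ τ (B.map f.toEmbedding) := by
  simp only [Near, Finset.mem_map, Equiv.coe_toEmbedding, forall_exists_index, and_imp,
    forall_apply_eq_imp_iff₂]

theorem IsAut.Bar (h : IsAut a b f g) (J : E → ℝ) (σ τ : V → Bool) (q : ℝ) :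
    Bar a b hlf (fun e => J (g e)) (fun v => σ (f v)) (fun v => τ (f v)) q
      ↔ Pool.Agent.Helper42.EA.Bar a b hlf J σ τ q := by
  constructor
  · intro h1 B
    obtain ⟨D, h2, h3⟩ := h1 (B.map f.symm.toEmbedding)
    refine ⟨D.map f.toEmbedding, ?_, ?_⟩
    · rw [flip_transport, near_transport, map_map_symm] at h2
      exact h2
    · rwa [h.En] at h3
  · intro h1 B
    obtain ⟨D, h2, h3⟩ := h1 (B.map f.toEmbedding)
    refine ⟨D.map f.symm.toEmbedding, ?_, ?_⟩
    · rw [flip_transport, near_transport, map_map_symm]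
      exact h2
    · rwa [h.En, map_map_symm]

theorem IsAut.finWG (h : IsAut a b f g) (J : E → ℝ) :
    (fun e => J (g e)) ∈ FinWG a b hlf ↔ J ∈ FinWG a b hlf := by
  let φ : (V → Bool) ≃ (V → Bool) :=
    ⟨fun σ v => σ (f v), fun σ v => σ (f.symm v), fun σ => by simp, fun σ => by simp⟩
  have h1 : WG a b hlf (fun e => J (g e)) = φ '' (WG a b hlf J) := by
    ext σ
    rw [Equiv.image_eq_preimage_symm]
    show Pool.Agent.Helper23.EA.WGS a b hlf (fun e => J (g e)) σ
      ↔ Pool.Agent.Helper23.EA.WGS a b hlf J (φ.symm σ)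
    rw [← h.WGS J (φ.symm σ)]
    simp [φ]
  unfold FinWG
  rw [mem_ofPred_eq, mem_ofPred_eq, h1, Set.finite_image_iff φ.injective.injOn]

theorem IsAut.mem_RR (h : IsAut a b f g) (J : E → ℝ) (e : E) (s : Bool) (q : ℝ) :
    (fun e => J (g e)) ∈ RR a b hlf e s q ↔ J ∈ RR a b hlf (g e) s q := by
  constructor
  · rintro ⟨σ, τ, h1, h2, h3, h4, h5⟩
    have eσ : σ = fun v => (fun w => σ (f.symm w)) (f v) := by simp
    have eτ : τ = fun v => (fun w => τ (f.symm w)) (f v) := by simp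
    rw [eσ] at h1 h3 h5
    rw [eτ] at h2 h4 h5
    exact ⟨fun w => σ (f.symm w), fun w => τ (f.symm w), (h.WGS J _).1 h1, (h.WGS J _).1 h2,
      (h.status _ e).symm.trans h3, (h.status _ e).symm.trans h4, (h.Bar J _ _ q).1 h5⟩
  · rintro ⟨σ, τ, h1, h2, h3, h4, h5⟩
    refine ⟨fun v => σ (f v), fun v => τ (f v), ?_, ?_, ?_, ?_, ?_⟩
    · rw [h.WGS]; exact h1
    · rw [h.WGS]; exact h2
    · rw [h.status]; exact h3
    · rw [h.status]; exact h4
    · rw [h.Bar]; exact h5

end Pool.Agent.Helper42.EA
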